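import Pool.Agent.H2.Psi6
import Pool.Agent.H2.Psi7

namespace Pool.Agent.Results.MP_3169d4_al.Counterexample

/-- There are finite groups `G` and `H` of the same order with the same sum of the totients of
the element orders such that `G` is simple and `H` is not simple. -/
theorem result :
    ∃ (G H : Type) (_ : Group G) (_ : Group H) (_ : Fintype G) (_ : Fintype H),
      Fintype.card G = Fintype.card H ∧
      ∑ g : G, Nat.totient (orderOf g) = ∑ h : H, Nat.totient (orderOf h) ∧
      IsSimpleGroup G ∧ ¬ IsSimpleGroup H := by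
  letI : Fintype Pool.Agent.H2.Psi.G := Fintype.ofFinite _
  refine ⟨Pool.Agent.H2.Psi.G, Pool.Agent.H2.Psi.H, inferInstance, inferInstance, inferInstance,
    inferInstance, ?_, ?_, Pool.Agent.H2.Psi.simple_G, Pool.Agent.H2.Psi.not_simple_H⟩
  · rw [Pool.Agent.H2.Psi.card_H, ← Nat.card_eq_fintype_card, Pool.Agent.H2.Psi.card_G]
  · rw [Pool.Agent.H2.Psi.psi_G, Pool.Agent.H2.Psi.psi_H]

end Pool.Agent.Results.MP_3169d4_al.Counterexample
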